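import Mathlib
import Pool.Agent.FSQ.Dens

set_option autoImplicit false

/-!
# MP_b17637_nt: almost all positive integers have an admissible quadruple

The number of the positive integers `n ≤ N` without an admissible quadruple is `O(N / log N)`.

Put `y = a ^ 2 - 2 * x`, `z = b ^ 2 - 2 * x`: then
`x ^ 2 + y ^ 2 + z ^ 2 = P(x, a, b) = 9 * x ^ 2 - 4 * x * (a ^ 2 + b ^ 2) + a ^ 4 + b ^ 4`, so `n` has an
admissible quadruple if `n = w ^ 2 + P(x, a, b)` with `w > 0`.  For the windows `[W ^ 2, (W + H) ^ 2)`,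
`H = W / k`, and the classes of `n` modulo `2 g Q`, `Q` the product of `8` and of the odd primes up to
`L`, we choose a class of `(w, x, a, b)` modulo `Q` with the right value (module `Loc`, a Hensel
argument), and we bound from above the number of the pairs of solutions in a box with the same value
of `w ^ 2 + P(x, a, b)` (modules `Diag`, `Off`, `Asm`).  By Cauchy-Schwarz almost all `n` of the window
and the class are values; `L` and `k` grow with `N` (modules `Win`, `Dens`).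
-/

namespace Pool.Agent.Results.MP_b17637_nt.AlmostAll

/-- The quadruple `(x, y, z, w)` is admissible for `n`: `w` is positive, `n` is the sum of the four
squares, and `2 x + y` and `2 x + z` are squares (of integers). -/
def Admissible (n : ℕ) (x y z w : ℤ) : Prop :=
  0 < w ∧ (n : ℤ) = x ^ 2 + y ^ 2 + z ^ 2 + w ^ 2 ∧ IsSquare (2 * x + y) ∧ IsSquare (2 * x + z)

/-- For all `N ≥ 2`, the number of the integers `1 ≤ n ≤ N` without an admissible quadruple is at
most `C * N / log N`. -/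
theorem result : ∃ C : ℝ, ∀ N : ℕ, 2 ≤ N →
    (({n : ℕ | 1 ≤ n ∧ n ≤ N ∧ ¬ ∃ x y z w : ℤ, Admissible n x y z w}.ncard : ℕ) : ℝ) ≤
      C * (N / Real.log N) := by
  classical
  obtain ⟨B, hB0, hB⟩ := FSQ.exc_log
  refine ⟨2 * B, fun N hN => ?_⟩
  have h1 := hB (N + 1) (by omega)
  have hsub : {n : ℕ | 1 ≤ n ∧ n ≤ N ∧ ¬ ∃ x y z w : ℤ, Admissible n x y z w} ⊆
      (FSQ.exc (N + 1) : Set ℕ) := by
    rintro n ⟨-, h2, h3⟩
    simp only [FSQ.exc, Finset.coe_filter, Finset.mem_range, Set.mem_setOf_eq]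
    exact ⟨by omega, h3⟩
  have h2 : ({n : ℕ | 1 ≤ n ∧ n ≤ N ∧ ¬ ∃ x y z w : ℤ, Admissible n x y z w}.ncard : ℝ) ≤
      ((FSQ.exc (N + 1)).card : ℝ) := by
    have h3 := Set.ncard_le_ncard hsub (Finset.finite_toSet _)
    rw [Set.ncard_coe_finset] at h3
    exact_mod_cast h3
  have hN' : (2 : ℝ) ≤ N := by exact_mod_cast hN
  have hl : 0 < Real.log N := Real.log_pos (by linarith)
  have hll : Real.log N ≤ Real.log ((N + 1 : ℕ) : ℝ) :=
    Real.log_le_log (by linarith) (by push_cast; linarith)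
  have h3 : ((N + 1 : ℕ) : ℝ) / Real.log ((N + 1 : ℕ) : ℝ) ≤ 2 * (N / Real.log N) := by
    have h4 : ((N + 1 : ℕ) : ℝ) ≤ 2 * N := by push_cast; linarith
    calc ((N + 1 : ℕ) : ℝ) / Real.log ((N + 1 : ℕ) : ℝ) ≤ (2 * N) / Real.log N := by
          gcongr
      _ = 2 * (N / Real.log N) := by ring
  calc ({n : ℕ | 1 ≤ n ∧ n ≤ N ∧ ¬ ∃ x y z w : ℤ, Admissible n x y z w}.ncard : ℝ)
      ≤ B * (((N + 1 : ℕ) : ℝ) / Real.log ((N + 1 : ℕ) : ℝ)) := h2.trans h1
    _ ≤ B * (2 * (N / Real.log N)) := mul_le_mul_of_nonneg_left h3 hB0.le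
    _ = 2 * B * (N / Real.log N) := by ring

end Pool.Agent.Results.MP_b17637_nt.AlmostAll
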